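import Pool.Agent.Helper47.LD7.TTB2
import Pool.Agent.Helper94.LD7.TTA
import Pool.Agent.Helper68.LD7.TTB1
import Pool.Agent.Helper76.LD7.Num

/-!
# Project LD7, block TTC7: the times at `x` and the times of the stage
-/

set_option autoImplicit false

namespace Pool.Agent.Helper11.LD7

open Set
open Pool.Agent.Helper41.LD5 (nuP fp)
open Pool.Agent.Helper41.LD7

theorem nu_T {F : Pm} {K : ℕ} {a₀ ℓst ℓ x : ℝ} (hF : F.Ok) (hK : F.Big K) (S : F.St K a₀ ℓst) (hℓ : 0 < ℓ) (hℓst : ℓ ≤ ℓst)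
    (hT : F.T K a₀ ℓst ℓ ≤ 2 ^ (2 * K)) (hx : x ∈ Icc a₀ (a₀ + ℓst)) {g : ℕ} (hg : 1 ≤ g) (hgX : g ≤ F.X) :
    g * nuP F.A₀ F.P g x ℓ ≤ Tt F.A₀ F.P (F.Th K) a₀ ℓ + g ∧ Tt F.A₀ F.P (F.Th K) a₀ ℓ ≤ g * nuP F.A₀ F.P g x ℓ + F.X * (F.C₁ * F.E K + 1) := by
  have hx1 : 1 < F.x₁ := hF.h1
  have hA := hF.hA
  have hP := hF.hP
  have ha : F.x₁ ≤ a₀ := S.lo
  have ha1 : 1 ≤ a₀ := by linarith
  have ha0 : 0 < a₀ := by linarith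
  have hx0 : 0 < x := by linarith [hx.1]
  have hx11 : 1 ≤ x := by linarith [hx.1]
  have hTh : (1 : ℝ) ≤ F.Th K := by
    unfold Pm.Th
    exact one_le_pow₀ (by norm_num)
  have hK4 : (2 : ℝ) ^ 0 ≤ 2 ^ (K ^ 4) := pow_le_pow_right₀ (by norm_num) (Nat.zero_le _)
  have hst1 : ℓst ≤ 1 := by
    have h1 := S.sm
    have h2 := S.pos
    have h3 : ℓst * 2 ^ 0 ≤ ℓst * 2 ^ (K ^ 4) := mul_le_mul_of_nonneg_left hK4 h2.le
    rw [pow_zero, mul_one] at h3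
    linarith
  have hℓ1 : ℓ ≤ 1 := hℓst.trans hst1
  have hsp := Pool.Agent.Helper68.LD7.Tt_spec hF ha hℓ (F.Th K)
  have hbig := Pool.Agent.Helper68.LD7.Tt_big hF hℓ hℓ1 (Pool.Agent.Helper68.LD7.Th_ge hF hK) ha
  set N := Tt F.A₀ F.P (F.Th K) a₀ ℓ with hN
  have hm1 : F.Th K ≤ fp F.A₀ F.P N x * ℓ :=
    hsp.trans (mul_le_mul_of_nonneg_right (Pool.Agent.Helper94.LD7.fp_mono hA hP (by omega) ha0 hx.1) hℓ.le)
  -- the first inequality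
  obtain ⟨m, hm2, hm3⟩ : ∃ m : ℕ, N ≤ g * m ∧ g * m ≤ N + g := by
    refine ⟨N / g + 1, ?_, ?_⟩
    · have := Nat.lt_div_mul_add (a := N) (b := g) hg
      rw [mul_add, mul_one, mul_comm]
      omega
    · have := Nat.div_mul_le_self N g
      rw [mul_add, mul_one, mul_comm]
      omega
  have hmem : m ∈ {n : ℕ | 1 ≤ fp F.A₀ F.P (g * n) x * ℓ} := by
    show 1 ≤ fp F.A₀ F.P (g * m) x * ℓ
    calc (1 : ℝ) ≤ F.Th K := hTh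
      _ ≤ fp F.A₀ F.P N x * ℓ := hm1
      _ ≤ fp F.A₀ F.P (g * m) x * ℓ := mul_le_mul_of_nonneg_right (Pool.Agent.Helper94.LD7.fp_le hA hP hx11 hm2) hℓ.le
  have hnu : nuP F.A₀ F.P g x ℓ ≤ m := Nat.sInf_le hmem
  have hle : g * nuP F.A₀ F.P g x ℓ ≤ N + g := (Nat.mul_le_mul_left g hnu).trans hm3
  refine ⟨hle, ?_⟩
  have hspec : 1 ≤ fp F.A₀ F.P (g * nuP F.A₀ F.P g x ℓ) x * ℓ := Nat.sInf_mem (s := {n : ℕ | 1 ≤ fp F.A₀ F.P (g * n) x * ℓ}) ⟨m, hmem⟩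
  set n := g * nuP F.A₀ F.P g x ℓ with hn
  -- the size
  have hb := Pool.Agent.Helper47.LD7.Tt_bound hF hK S
  have hNb : N ≤ F.n₀ K a₀ ℓst + 2 ^ (2 * K) := by
    unfold Pm.T at hT
    rw [← hN] at hT
    omega
  obtain ⟨-, -, hZK⟩ := Pool.Agent.Helper76.LD7.num_Z hK
  have hXZ := (Pool.Agent.Helper76.LD7.num_le hF).1
  have hK0 := Pool.Agent.Helper76.LD7.num_K hK
  have hp : K < 2 ^ K := Nat.lt_two_pow_self
  have hn3 : n ≤ 2 ^ (3 * K + 1) := by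
    have h1 : 2 ^ K ≤ 2 ^ (3 * K) := Nat.pow_le_pow_right (by norm_num) (by omega)
    rw [pow_succ]
    omega
  have hnear : ((2 ^ (3 * K + 1) : ℕ) : ℝ) * ℓst ≤ 1 / 2 := by
    have h2 : (2 : ℝ) ^ (3 * K + 2) ≤ 2 ^ (K ^ 4) := by
      refine pow_le_pow_right₀ (by norm_num) ?_
      calc 3 * K + 2 ≤ K * K := by nlinarith
        _ = K ^ 2 := (pow_two _).symm
        _ ≤ K ^ 4 := Nat.pow_le_pow_right (by omega) (by omega)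
    have h3 := S.sm
    have h4 := S.pos
    have h5 : (2 : ℝ) ^ (3 * K + 2) * ℓst ≤ 1 := by
      calc (2 : ℝ) ^ (3 * K + 2) * ℓst ≤ 2 ^ (K ^ 4) * ℓst := by gcongr
        _ = ℓst * 2 ^ (K ^ 4) := mul_comm _ _
        _ ≤ 1 := h3
    push_cast
    rw [show 3 * K + 2 = (3 * K + 1) + 1 by ring, pow_succ] at h5
    linarith
  have h2a : fp F.A₀ F.P n x ≤ 2 * fp F.A₀ F.P n a₀ :=
    Pool.Agent.Helper94.LD7.fp_near hA hP ha1 hx.1 hx.2 hn3 hnear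
  have hstep := Pool.Agent.Helper94.LD7.fp_step hA hP ha0 (Nat.le_add_right n (F.X * (F.C₁ * F.E K + 1)))
  rw [Nat.add_sub_cancel_left] at hstep
  have hpow : 2 * F.Th K ≤ (a₀ ^ (1 / (F.P : ℝ))) ^ (F.X * (F.C₁ * F.E K + 1)) := by
    have h1 : (2 : ℝ) ^ (F.C₁ * F.E K + 1) ≤ (a₀ ^ (1 / (F.P : ℝ))) ^ (F.X * (F.C₁ * F.E K + 1)) := by
      rw [pow_mul (a₀ ^ (1 / (F.P : ℝ)))]
      refine pow_le_pow_left₀ (by norm_num) (hF.hx1.trans ?_) _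
      refine pow_le_pow_left₀ (by positivity) ?_ _
      exact Real.rpow_le_rpow (by linarith) ha (by positivity)
    calc 2 * F.Th K = 2 ^ (F.C₁ * F.E K + 1) := by
          unfold Pm.Th
          rw [pow_succ]
          ring
      _ ≤ _ := h1
  have hvn : 0 ≤ fp F.A₀ F.P n a₀ := Pool.Agent.Helper94.LD7.fp_nonneg hA ha0
  have hhalf : 1 ≤ 2 * (fp F.A₀ F.P n a₀ * ℓ) := by
    calc (1 : ℝ) ≤ fp F.A₀ F.P n x * ℓ := hspec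
      _ ≤ 2 * fp F.A₀ F.P n a₀ * ℓ := by gcongr
      _ = _ := by ring
  refine Pool.Agent.Helper68.LD7.Tt_le ?_
  calc F.Th K = F.Th K * 1 := (mul_one _).symm
    _ ≤ F.Th K * (2 * (fp F.A₀ F.P n a₀ * ℓ)) := by
        gcongr
    _ = fp F.A₀ F.P n a₀ * (2 * F.Th K) * ℓ := by ring
    _ ≤ fp F.A₀ F.P n a₀ * (a₀ ^ (1 / (F.P : ℝ))) ^ (F.X * (F.C₁ * F.E K + 1)) * ℓ := by gcongr
    _ ≤ fp F.A₀ F.P (n + F.X * (F.C₁ * F.E K + 1)) a₀ * ℓ := by gcongr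

end Pool.Agent.Helper11.LD7
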